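import Pool.Agent.R414.EB.Low
import Pool.Agent.R414.ED.Lim

set_option autoImplicit false

/-! Tools: conjugates, ranks of kernels, rational fixed points of large height. -/

open Finset Height NumberField Polynomial
open Pool.Agent.R414.EB
open Pool.Agent.R414.EA (shells)

namespace Pool.Agent.R414.EF

/-- an irrational algebraic number has another conjugate -/
theorem exists_conj {w : ℂ} {K : IntermediateField ℚ ℂ} (hfd : FiniteDimensional ℚ K) {D : ℕ}
    (hK : Module.finrank ℚ K ≤ D) (hw : w ∈ K) (hrat : ∀ z : ℚ, (z : ℂ) ≠ w) :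
    ∃ w' : ℂ, w' ≠ w ∧ (∃ K' : IntermediateField ℚ ℂ, FiniteDimensional ℚ K' ∧
      Module.finrank ℚ K' ≤ D ∧ w' ∈ K') ∧ ∀ Q : ℚ[X], aeval w Q = 0 → aeval w' Q = 0 := by
  classical
  have hint : IsIntegral ℚ w := by
    have h1 : IsIntegral ℚ (⟨w, hw⟩ : K) := IsIntegral.of_finite ℚ _
    exact h1.map K.val
  have hfin : Module.finrank ℚ (IntermediateField.adjoin ℚ {w}) = (minpoly ℚ w).natDegree :=
    IntermediateField.adjoin.finrank hint
  have hle : (minpoly ℚ w).natDegree ≤ D := by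
    rw [← hfin]
    refine le_trans ?_ hK
    have h2 : IntermediateField.adjoin ℚ {w} ≤ K :=
      IntermediateField.adjoin_simple_le_iff.mpr hw
    exact LinearMap.finrank_le_finrank_of_injective
      (f := (IntermediateField.inclusion h2).toLinearMap)
      (IntermediateField.inclusion_injective h2)
  have hdeg : 1 < (minpoly ℚ w).natDegree := by
    by_contra hlt
    have h1 : (minpoly ℚ w).natDegree = 1 := by
      have := minpoly.natDegree_pos hint
      omega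
    have h2 : (minpoly ℚ w).degree = 1 := by
      rw [Polynomial.degree_eq_natDegree (minpoly.ne_zero hint), h1]
      rfl
    obtain ⟨z, hz⟩ := minpoly.mem_range_of_degree_eq_one ℚ w h2
    exact hrat z (by rw [← hz]; rfl)
  have hsep : (minpoly ℚ w).Separable := (minpoly.irreducible hint).separable
  have hcard := Polynomial.card_rootSet_eq_natDegree hsep (IsAlgClosed.splits ((minpoly ℚ w).map (algebraMap ℚ ℂ)))
  have hcard2 : 1 < ((minpoly ℚ w).rootSet ℂ).toFinset.card := by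
    rw [Set.toFinset_card, hcard]
    exact hdeg
  obtain ⟨w', hw', hne⟩ := Finset.exists_mem_ne hcard2 w
  rw [Set.mem_toFinset, Polynomial.mem_rootSet] at hw'
  have hroot : aeval w' (minpoly ℚ w) = 0 := hw'.2
  have hint' : IsIntegral ℚ w' := ⟨minpoly ℚ w, minpoly.monic hint, by
    rw [← hroot]; rfl⟩
  refine ⟨w', hne, ⟨IntermediateField.adjoin ℚ {w'}, IntermediateField.adjoin.finiteDimensional hint',
    ?_, IntermediateField.mem_adjoin_simple_self ℚ w'⟩, fun Q hQ => ?_⟩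
  · rw [IntermediateField.adjoin.finrank hint']
    refine le_trans ?_ hle
    exact Polynomial.natDegree_le_of_dvd (minpoly.dvd ℚ w' hroot) (minpoly.ne_zero hint)
  · obtain ⟨R, hR⟩ := minpoly.dvd ℚ w hQ
    rw [hR, map_mul, hroot, zero_mul]

/-- the rank of the kernel of a system of linear equations -/
theorem le_finrank_ker {ι κ : Type} [Fintype ι] [Fintype κ] (f : (ι → ℤ) →ₗ[ℤ] (κ → ℤ)) :
    Fintype.card ι ≤ Module.finrank ℤ (LinearMap.ker f) + Fintype.card κ := by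
  have h1 := Submodule.finrank_quotient_add_finrank (LinearMap.ker f)
  rw [(LinearMap.quotKerEquivRange f).finrank_eq] at h1
  have h2 := Submodule.finrank_le (LinearMap.range f)
  rw [Module.finrank_fintype_fun_eq_card] at h1 h2
  omega

/-- **Rational fixed points of large height.** -/
theorem fix_tail {d : ℕ} {c : ℕ} {C₂ : ℝ} (ex : Prop) [Decidable ex] (hd2 : 2 ≤ d)
    (hd : 1 + 2 * 1 * (c * (3 * 1 + 4) + 1) ≤ d + 1)
    (hc : ∀ R : ℝ, 1 ≤ R → ∃ A : Finset ℂ, (A.card : ℝ) ≤ C₂ * R ^ c ∧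
      ∀ (K : Type) [Field K] [NumberField K], Module.finrank ℚ K ≤ 1 →
        ∀ x : K, mulHeight₁ x ≤ R → ∀ φ : K →+* ℂ, φ x ∈ A) :
    ∃ C : ℝ, 0 ≤ C ∧ ∀ H : ℕ, 1 ≤ H → ∀ κ₀ : ℕ,
      (({v | v ∈ vbox d H ∧ v.2.2 (Fin.last d) ≠ 0 ∧ (ex → v.2.1 = 0) ∧
        ∃ z : ℚ, 2 ^ κ₀ ≤ mulHeight₁ z ∧ Rec v z z z} : Set (Vec d)).ncard : ℝ) ≤
        C * (1 / 2) ^ κ₀ * (H : ℝ) ^ ((if ex then 1 else 2) + d) := by
  classical
  obtain ⟨CB, hCB, hB⟩ := case_count Pool.Agent.W347.GE.root (D := 1) (m := 1) (d := d) (c := c)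
    le_rfl hd (C₂ := C₂) ex
  refine ⟨2 * CB, by positivity, fun H hH κ₀ => ?_⟩
  have hHR : (1 : ℝ) ≤ H := by exact_mod_cast hH
  have hfin : ∀ Q : Vec d → Prop, ({v | v ∈ vbox d H ∧ Q v} : Set (Vec d)).Finite := fun Q =>
    (Finset.finite_toSet (vbox d H)).subset fun v h => h.1
  have gB := shells (W := {v : Vec d | v ∈ vbox d H ∧ ∃ κ, Case 1 1 (κ + κ₀) ex H v})
    (hfin _) (fun κ => {v | v ∈ vbox d H ∧ Case 1 1 (κ + κ₀) ex H v}) (fun κ => hfin _)
    (by
      rintro v ⟨hv, κ, hκ⟩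
      exact ⟨κ, hv, hκ⟩)
    (X := CB * (H : ℝ) ^ ((if ex then 1 else 2) + d) * (1 / 2) ^ κ₀) (by positivity) (by
      intro κ
      obtain ⟨A, hA1, hA2⟩ := hc (2 ^ ((κ + κ₀) + 1)) (one_le_pow₀ (by norm_num))
      have := hB H hH (κ + κ₀) A hA1 (fun K _ _ hK x hx φ => hA2 K hK x hx φ)
      refine this.trans (le_of_eq ?_)
      rw [pow_add (1 / 2 : ℝ) κ κ₀]
      have e1 : d + 1 - 1 = d := by omega
      rw [e1]
      ring)
  have h1 : ({v | v ∈ vbox d H ∧ v.2.2 (Fin.last d) ≠ 0 ∧ (ex → v.2.1 = 0) ∧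
      ∃ z : ℚ, 2 ^ κ₀ ≤ mulHeight₁ z ∧ Rec v z z z} : Set (Vec d)).ncard ≤
      ({v : Vec d | v ∈ vbox d H ∧ ∃ κ, Case 1 1 (κ + κ₀) ex H v}).ncard := by
    refine Set.ncard_le_ncard ?_ (hfin _)
    rintro v ⟨hv, hlead, hex, z, hz, hrec⟩
    refine ⟨hv, ?_⟩
    obtain ⟨hb, he, hg⟩ := mem_vbox.mp hv
    have hap : mulHeight₁ z ≤ ((d + 2) * H : ℝ) ^ 1 := by
      have h3 := apriori hd2 v.1 v.2.1 v.2.2 hb he hg ({z} : Finset ℚ) (by
        intro s hs
        rw [Finset.mem_singleton] at hs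
        subst hs
        exact ⟨s, Finset.mem_singleton_self _, s, Finset.mem_singleton_self _, hrec⟩) hlead
        (Finset.mem_singleton_self z)
      rwa [Module.finrank_self] at h3
    obtain ⟨κ', h2, h3⟩ := exists_nat_pow_near (one_le_mulHeight₁ z)
      (by norm_num : (1 : ℝ) < 2)
    have h4 : κ₀ ≤ κ' := by
      have h5 : (2 : ℝ) ^ κ₀ < 2 ^ (κ' + 1) := lt_of_le_of_lt hz h3
      have h6 := (pow_lt_pow_iff_right₀ (by norm_num : (1 : ℝ) < 2)).mp h5
      omega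
    refine ⟨κ' - κ₀, ℚ, inferInstance, inferInstance, by rw [Module.finrank_self], fun _ => z,
      fun _ => z, fun _ => z, fun i j _ => Subsingleton.elim _ _, fun _ => hrec, 0,
      fun _ => ⟨le_rfl, le_rfl, le_rfl⟩, ?_, ?_, hap, ![1, 0, 0, 0], ?_, fun h => ⟨?_, ?_⟩⟩
    · rw [Nat.sub_add_cancel h4]
      exact h2
    · rw [Nat.sub_add_cancel h4]
      exact h3.le
    · intro j
      fin_cases j <;> simp [one_le_mulHeight₁]
    · simp
    · simp [hex h]
  have h2 : (({v | v ∈ vbox d H ∧ v.2.2 (Fin.last d) ≠ 0 ∧ (ex → v.2.1 = 0) ∧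
      ∃ z : ℚ, 2 ^ κ₀ ≤ mulHeight₁ z ∧ Rec v z z z} : Set (Vec d)).ncard : ℝ) ≤
      2 * (CB * (H : ℝ) ^ ((if ex then 1 else 2) + d) * (1 / 2) ^ κ₀) :=
    le_trans (by exact_mod_cast h1) gB
  refine h2.trans (le_of_eq ?_)
  ring

end Pool.Agent.R414.EF
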