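import Pool.Agent.R414.EF.Pl

set_option autoImplicit false

/-! The limit law for the Hénon maps with a periodic point of bounded degree. -/

open Finset Height NumberField Filter Topology
open Pool.Agent.R414.EB
open Pool.Agent.R414.ED

namespace Pool.Agent.R414.EF.Hn

open Pool.Agent.R414.EF

/-- the index set of the coefficients -/
abbrev Ix (d : ℕ) : Type := Option (Option (Fin (d + 1)))

/-- the vector with its parts -/
def toV {d : ℕ} (v : Ix d → ℤ) : Vec d := (v none, v (some none), fun i => v (some (some i)))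

theorem toV_inj {d : ℕ} : Function.Injective (toV : (Ix d → ℤ) → Vec d) := by
  intro v w h
  simp only [toV, Prod.mk.injEq] at h
  funext i
  rcases i with _ | _ | i
  · exact h.1
  · exact h.2.1
  · exact congrFun h.2.2 i

/-- `P` is a periodic point of degree at most `D` -/
def Per {d : ℕ} (D : ℕ) (v : Vec d) (P : ℂ × ℂ) : Prop :=
  (∃ K : IntermediateField ℚ ℂ, FiniteDimensional ℚ K ∧ Module.finrank ℚ K ≤ D ∧
      P.1 ∈ K ∧ P.2 ∈ K) ∧ ∃ n : ℕ, 1 ≤ n ∧ (hen ℂ v)^[n] P = P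

theorem perC_one {d D : ℕ} {v : Vec d} : PerC D 1 v ↔ ∃ P, Per D v P := by
  constructor
  · rintro ⟨z, -, hz⟩
    exact ⟨z 0, hz 0⟩
  · rintro ⟨z, hz⟩
    exact ⟨fun _ => z, fun i j _ => Subsingleton.elim _ _, fun _ => hz⟩

theorem perC_two {d D : ℕ} {v : Vec d} {z w : ℂ × ℂ} (hz : Per D v z) (hw : Per D v w)
    (hne : w ≠ z) : PerC D 2 v := by
  refine ⟨![z, w], ?_, ?_⟩
  · intro i j hij
    fin_cases i <;> fin_cases j <;> simp_all [eq_comm]
  · intro i
    fin_cases i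
    · exact hz
    · exact hw

theorem fix_iff {d : ℕ} {v : Vec d} (hb : v.1 ≠ 0) (P : ℂ × ℂ) :
    hen ℂ v P = P ↔ P.1 = P.2 ∧ Rec v P.2 P.2 P.2 := by
  have hbC : (v.1 : ℂ) ≠ 0 := by exact_mod_cast hb
  unfold hen Rec
  rw [Prod.ext_iff]
  simp only
  constructor
  · rintro ⟨h1, h2⟩
    rw [div_eq_iff hbC, ← h1] at h2
    refine ⟨h1.symm, ?_⟩
    linear_combination h2
  · rintro ⟨h1, h2⟩
    refine ⟨h1.symm, ?_⟩
    rw [div_eq_iff hbC, h2, h1]
    ring

/-- fixed points -/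
theorem per_of_fix {d D : ℕ} {v : Vec d} (hb : v.1 ≠ 0) {z : ℂ}
    (hK : ∃ K : IntermediateField ℚ ℂ, FiniteDimensional ℚ K ∧ Module.finrank ℚ K ≤ D ∧ z ∈ K)
    (h : Rec v z z z) : Per D v (z, z) := by
  obtain ⟨K, h1, h2, h3⟩ := hK
  exact ⟨⟨K, h1, h2, h3, h3⟩, 1, le_rfl, (fix_iff hb (z, z)).mpr ⟨rfl, h⟩⟩

/-- the image of a periodic point -/
theorem Per.image {d D : ℕ} {v : Vec d} {P : ℂ × ℂ} (h : Per D v P) : Per D v (hen ℂ v P) := by
  obtain ⟨⟨K, hK1, hK2, hK3, hK4⟩, n, hn, hnz⟩ := h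
  refine ⟨⟨K, hK1, hK2, hK4, ?_⟩, n, hn, ?_⟩
  · unfold hen
    exact K.div_mem (K.sub_mem (K.sum_mem fun i _ => K.mul_mem (intCast_mem K _) (pow_mem hK4 _))
      (K.mul_mem (intCast_mem K _) hK3)) (intCast_mem K _)
  · rw [← Function.iterate_succ_apply, Function.iterate_succ_apply', hnz]

theorem rec_iff {d : ℕ} (v : Vec d) (z : ℚ) : Rec v z z z ↔ Rec v (z : ℂ) z z := by
  unfold Rec
  constructor
  · intro h
    exact_mod_cast congrArg (fun q : ℚ => (q : ℂ)) h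
  · intro h
    exact_mod_cast h

/-- the functional of the point `z` -/
def fn (d : ℕ) (z : ℚ) : (Ix d → ℤ) →ₗ[ℤ] (Fin 1 → ℤ) where
  toFun v _ := ∑ i : Fin (d + 1), v (some (some i)) * (z.num ^ (i : ℕ) * (z.den : ℤ) ^ (d - i)) -
    (v none + v (some none)) * (z.num * (z.den : ℤ) ^ (d - 1))
  map_add' v w := by
    funext _
    simp only [Pi.add_apply, add_mul, sum_add_distrib]
    ring
  map_smul' c v := by
    funext _
    simp only [Pi.smul_apply, smul_eq_mul, RingHom.id_apply, mul_assoc, ← mul_sum, mul_sub, ← mul_add]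

/-- the lattice of the point `z` -/
def lat (d : ℕ) (z : ℚ) : Submodule ℤ (Ix d → ℤ) := LinearMap.ker (fn d z)

theorem mem_lat {d : ℕ} (hd : 1 ≤ d) (z : ℚ) (v : Ix d → ℤ) :
    v ∈ lat d z ↔ Rec (toV v) z z z := by
  have hq : ((z.den : ℕ) : ℚ) ≠ 0 := by exact_mod_cast z.den_nz
  have hzq : z * (z.den : ℚ) = z.num := Rat.mul_den_eq_num z
  have h1 : ∀ i : Fin (d + 1), z ^ (i : ℕ) * (z.den : ℚ) ^ d =
      (z.num : ℚ) ^ (i : ℕ) * (z.den : ℚ) ^ (d - i) := by
    intro i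
    have e1 : (z.den : ℚ) ^ d = (z.den : ℚ) ^ (i : ℕ) * (z.den : ℚ) ^ (d - i) := by
      rw [← pow_add]
      congr 1
      omega
    rw [e1, ← mul_assoc, ← mul_pow, hzq]
  have h2 : z * (z.den : ℚ) ^ d = (z.num : ℚ) * (z.den : ℚ) ^ (d - 1) := by
    have e1 : (z.den : ℚ) ^ d = (z.den : ℚ) * (z.den : ℚ) ^ (d - 1) := by
      rw [← pow_succ']
      congr 1
      omega
    rw [e1, ← mul_assoc, hzq]
  have h3 : v ∈ lat d z ↔ ∑ i : Fin (d + 1), v (some (some i)) *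
      (z.num ^ (i : ℕ) * (z.den : ℤ) ^ (d - i)) -
      (v none + v (some none)) * (z.num * (z.den : ℤ) ^ (d - 1)) = 0 := by
    unfold lat
    rw [LinearMap.mem_ker, funext_iff]
    constructor
    · intro h
      exact h 0
    · intro h _
      exact h
  rw [h3]
  unfold Rec toV
  simp only
  have hqd : (z.den : ℚ) ^ d ≠ 0 := pow_ne_zero _ hq
  rw [← mul_left_inj' hqd, sum_mul]
  have e2 : ∑ i : Fin (d + 1), (v (some (some i)) : ℚ) * z ^ (i : ℕ) * (z.den : ℚ) ^ d =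
      ∑ i : Fin (d + 1), (v (some (some i)) : ℚ) *
        ((z.num : ℚ) ^ (i : ℕ) * (z.den : ℚ) ^ (d - i)) :=
    sum_congr rfl fun i _ => by rw [mul_assoc, h1 i]
  have e3 : ((v none : ℚ) * z + (v (some none) : ℚ) * z) * (z.den : ℚ) ^ d =
      ((v none : ℚ) + v (some none)) * ((z.num : ℚ) * (z.den : ℚ) ^ (d - 1)) := by
    rw [← h2]
    ring
  rw [e2, e3, sub_eq_zero]
  constructor
  · intro h
    exact_mod_cast congrArg (fun q : ℤ => (q : ℚ)) h
  · intro h
    exact_mod_cast h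

/-- Hénon maps fixing a given rational point of the diagonal -/
theorem exists_fix {d : ℕ} (hd : 2 ≤ d) (z : ℚ) : ∃ v : Ix d → ℤ, v ∈ lat d z ∧ IsHen (toV v) := by
  classical
  by_cases hz : z = 0
  · refine ⟨fun o => o.elim 1 fun o => o.elim 1 fun i => if i = Fin.last d then 1 else 0, ?_, ?_⟩
    · rw [mem_lat (by omega)]
      unfold Rec toV
      simp only [Option.elim_none, Option.elim_some, hz]
      rw [Finset.sum_eq_single (Fin.last d)]
      · simp
        omega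
      · intro i _ hi
        simp [hi]
      · simp
    · simp [IsHen, toV]
  · have hn : z.num ≠ 0 := Rat.num_ne_zero.mpr hz
    refine ⟨fun o => o.elim (z.num ^ (d - 1)) fun o => o.elim (z.num ^ (d - 1)) fun i =>
      if i = Fin.last d then 2 * (z.den : ℤ) ^ (d - 1) else 0, ?_, ?_⟩
    · rw [mem_lat (by omega)]
      unfold Rec toV
      simp only [Option.elim_none, Option.elim_some]
      rw [Finset.sum_eq_single (Fin.last d)]
      · rw [if_pos rfl, Fin.val_last]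
        push_cast
        have e1 : z ^ d = z ^ (d - 1) * z := by
          rw [← pow_succ]
          congr 1
          omega
        have e2 : (z.num : ℚ) = z * (z.den : ℚ) := (Rat.mul_den_eq_num z).symm
        rw [e1, e2, mul_pow]
        ring
      · intro i _ hi
        simp [hi]
      · simp
    · refine ⟨pow_ne_zero _ hn, pow_ne_zero _ hn, ?_⟩
      show (if Fin.last d = Fin.last d then 2 * (z.den : ℤ) ^ (d - 1) else 0) ≠ 0
      rw [if_pos rfl]
      exact mul_ne_zero two_ne_zero (pow_ne_zero _ (by exact_mod_cast z.den_nz))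

/-- a unique periodic point is a rational fixed point -/
theorem unique_per {d D : ℕ} {v : Vec d} (hv : IsHen v) {P : ℂ × ℂ} (hP : Per D v P)
    (huniq : ∀ P', Per D v P' → P' = P) : ∃ z : ℚ, P = ((z : ℂ), (z : ℂ)) ∧ Rec v z z z := by
  have hfix : hen ℂ v P = P := huniq _ hP.image
  obtain ⟨h1, h2⟩ := (fix_iff hv.1 P).mp hfix
  obtain ⟨w, hw⟩ : ∃ w, w = P.2 := ⟨_, rfl⟩
  have hPw : P = (w, w) := by
    rw [Prod.ext_iff]
    exact ⟨by rw [h1, hw], hw.symm⟩
  rw [← hw] at h2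
  by_cases hrat : ∀ z : ℚ, (z : ℂ) ≠ w
  · exfalso
    obtain ⟨⟨K, hK1, hK2, -, hK3⟩, -⟩ := hP
    rw [← hw] at hK3
    obtain ⟨w', hne, hK', hQ⟩ := exists_conj hK1 hK2 hK3 hrat
    apply hne
    have h3 : Rec v w' w' w' := by
      unfold Rec at h2 ⊢
      have h4 := hQ (∑ i : Fin (d + 1), Polynomial.C (v.2.2 i : ℚ) * Polynomial.X ^ (i : ℕ) -
        (Polynomial.C (v.1 : ℚ) * Polynomial.X + Polynomial.C (v.2.1 : ℚ) * Polynomial.X)) (by
          simp only [map_sub, map_sum, map_mul, map_add, map_pow, Polynomial.aeval_X, map_intCast]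
          rw [h2, sub_self])
      simp only [map_sub, map_sum, map_mul, map_add, map_pow, Polynomial.aeval_X, map_intCast] at h4
      exact sub_eq_zero.mp h4
    have h5 := huniq _ (per_of_fix hv.1 hK' h3)
    rw [hPw, Prod.ext_iff] at h5
    exact h5.1
  · push Not at hrat
    obtain ⟨z, hz⟩ := hrat
    refine ⟨z, by rw [hz]; exact hPw, ?_⟩
    rw [rec_iff, hz]
    exact h2

theorem cnt_toV {d : ℕ} (Q : Vec d → Prop) (H : ℕ) :
    cnt (fun v : Ix d → ℤ => Q (toV v)) H = ({v | v ∈ vbox d H ∧ Q v} : Set (Vec d)).ncard := by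
  unfold cnt
  rw [← Set.ncard_image_of_injective _ (toV_inj (d := d))]
  congr 1
  ext v
  simp only [Set.mem_image, Set.mem_ofPred_eq, mem_vbox]
  constructor
  · rintro ⟨w, ⟨h1, h2⟩, rfl⟩
    exact ⟨⟨h1 none, h1 (some none), fun i => h1 (some (some i))⟩, h2⟩
  · rintro ⟨⟨h1, h2, h3⟩, h4⟩
    refine ⟨fun o => o.elim v.1 fun o => o.elim v.2.1 v.2.2, ⟨?_, h4⟩, rfl⟩
    intro i
    rcases i with _ | _ | i
    · exact h1
    · exact h2
    · exact h3 i

/-- **The limit law.** -/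
theorem hen_limit (D : ℕ) (hD : 1 ≤ D) : ∃ d₀ : ℕ, ∀ d, d₀ ≤ d →
    ∃ (a : ℚ → ℝ) (κ : ℝ), 0 < κ ∧ (∀ z, 0 < a z) ∧ HasSum a κ ∧
      Tendsto (fun H : ℕ => (({v | v ∈ vbox d H ∧ (IsHen v ∧ ∃ P, Per D v P)} :
        Set (Vec d)).ncard : ℝ) / (H : ℝ) ^ (d + 2)) atTop (𝓝 κ) ∧
      ∀ z : ℚ, Tendsto (fun H : ℕ => (({v | v ∈ vbox d H ∧ (IsHen v ∧
        hen ℂ v ((z : ℂ), (z : ℂ)) = ((z : ℂ), (z : ℂ)) ∧
        ∀ P, Per D v P → P = ((z : ℂ), (z : ℂ)))} : Set (Vec d)).ncard : ℝ) /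
          (H : ℝ) ^ (d + 2)) atTop (𝓝 (a z)) := by
  classical
  obtain ⟨d₁, hd₁⟩ := Pool.Agent.R414.EB.final D 1 hD le_rfl
  obtain ⟨d₂, hd₂⟩ := Pool.Agent.R414.EB.final D 2 hD (by norm_num)
  obtain ⟨c, C₂, hc⟩ := Pool.Agent.W32.GE.pts 1
  refine ⟨d₁ + d₂ + 2 + 2 * (c * 7 + 1), fun d hd => ?_⟩
  have hd2 : 2 ≤ d := by omega
  obtain ⟨-, C₁, -, -, hC₁, h₁, -⟩ := hd₁ d (by omega)
  obtain ⟨-, C₃, -, -, hC₃, h₃, -⟩ := hd₂ d (by omega)
  obtain ⟨C₄, hC₄, h₄⟩ := fix_tail (d := d) (c := c) (C₂ := C₂) False hd2 (by omega) hc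
  simp only [if_false] at h₄
  let Good : (Ix d → ℤ) → Prop := fun v => IsHen (toV v)
  let S : (Ix d → ℤ) → Prop := fun v => IsHen (toV v) ∧ ∃ P, Per D (toV v) P
  let Bad : (Ix d → ℤ) → Prop := fun v => IsHen (toV v) ∧ PerC D 2 (toV v)
  let E : ℚ → (Ix d → ℤ) → Prop := fun z v =>
    IsHen (toV v) ∧ hen ℂ (toV v) ((z : ℂ), (z : ℂ)) = ((z : ℂ), (z : ℂ)) ∧
      ∀ P, Per D (toV v) P → P = ((z : ℂ), (z : ℂ))
  have hLfix : ∀ (z : ℚ) (v : Ix d → ℤ), IsHen (toV v) →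
      (v ∈ lat d z ↔ hen ℂ (toV v) ((z : ℂ), (z : ℂ)) = ((z : ℂ), (z : ℂ))) := by
    intro z v hv
    rw [mem_lat (by omega), rec_iff, fix_iff hv.1]
    simp
  have hBadle : ∀ H : ℕ, 1 ≤ H → (cnt Bad H : ℝ) ≤ C₃ * (H : ℝ) ^ (d + 1) := by
    intro H hH
    have h5 := h₃ H hH
    rw [← cnt_toV (fun v => IsHen v ∧ PerC D 2 v)] at h5
    have e1 : d + 3 - ek 2 = d + 1 := by
      have : ek 2 = 2 := by decide
      omega
    rw [e1] at h5
    exact h5
  have hK0 : ∀ (z : ℚ) (v : Ix d → ℤ), IsHen (toV v) →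
      hen ℂ (toV v) ((z : ℂ), (z : ℂ)) = ((z : ℂ), (z : ℂ)) → Per D (toV v) ((z : ℂ), (z : ℂ)) := by
    intro z v hv h
    exact per_of_fix hv.1 (rat_deg hD z) ((fix_iff hv.1 _).mp h).2
  obtain ⟨a, κ, ha0, hsum, hS, hE, hpos⟩ := main_limit (lat d) Good Bad S E (d + 2) C₁
    (fun z v hv => ⟨(hLfix z v hv.1).mpr hv.2.1, hv.1⟩)
    (fun z v hvL hvG => by
      have hfix := (hLfix z v hvG).mp hvL
      have hpre := hK0 z v hvG hfix
      refine ⟨⟨hvG, _, hpre⟩, fun hnE => ⟨hvG, ?_⟩⟩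
      by_contra hcon
      apply hnE
      refine ⟨hvG, hfix, fun w hw => ?_⟩
      by_contra hne
      exact hcon (perC_two hpre hw hne))
    (fun z z' v h h' => by
      have h5 := h'.2.2 _ (hK0 z v h.1 h.2.1)
      have h6 : (z : ℂ) = (z' : ℂ) := congrArg Prod.fst h5
      exact_mod_cast h6)
    (by
      have h5 : Tendsto (fun H : ℕ => C₃ * (1 / (H : ℝ))) atTop (𝓝 0) := by
        have := (tendsto_one_div_atTop_nhds_zero_nat (𝕜 := ℝ)).const_mul C₃
        rwa [mul_zero] at this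
      refine squeeze_zero' (Eventually.of_forall fun H => by positivity) ?_ h5
      filter_upwards [eventually_ge_atTop 1] with H hH
      have hH0 : (0 : ℝ) < H := by exact_mod_cast hH
      rw [div_le_iff₀ (by positivity)]
      refine (hBadle H hH).trans (le_of_eq ?_)
      rw [pow_succ (H : ℝ) (d + 1)]
      field_simp)
    (fun H hH => by
      have h5 := h₁ H hH
      have e1 : d + 3 - ek 1 = d + 2 := by
        have : ek 1 = 1 := by decide
        omega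
      rw [e1, ← cnt_toV (fun v => IsHen v ∧ PerC D 1 v)] at h5
      refine le_trans (Nat.cast_le.mpr (cnt_mono (fun v hv => ?_) H)) h5
      exact ⟨hv.1, perC_one.mpr hv.2⟩)
    (fun ε hε => by
      obtain ⟨κ₀, hκ₀⟩ : ∃ κ₀ : ℕ, C₄ * (1 / 2) ^ κ₀ < ε / 2 := by
        have h5 : Tendsto (fun n : ℕ => C₄ * (1 / 2 : ℝ) ^ n) atTop (𝓝 0) := by
          have := (tendsto_pow_atTop_nhds_zero_of_lt_one (r := (1 / 2 : ℝ)) (by norm_num)
            (by norm_num)).const_mul C₄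
          rwa [mul_zero] at this
        exact (h5.eventually (gt_mem_nhds (by positivity))).exists
      obtain ⟨A, -, hA⟩ := hc (2 ^ κ₀) (one_le_pow₀ (by norm_num))
      have hinj : Function.Injective (fun z : ℚ => (z : ℂ)) := Rat.cast_injective
      refine ⟨A.preimage (fun z : ℚ => (z : ℂ)) hinj.injOn, ?_⟩
      have hN : ∀ᶠ H : ℕ in atTop, 2 * C₃ / ε < (H : ℝ) :=
        tendsto_natCast_atTop_atTop.eventually (eventually_gt_atTop _)
      filter_upwards [hN, eventually_ge_atTop 1] with H hH hH1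
      have hH0 : (0 : ℝ) < H := by exact_mod_cast hH1
      have h5 : cnt (fun v => S v ∧ ∀ z ∈ A.preimage (fun z : ℚ => (z : ℂ)) hinj.injOn, ¬ E z v) H ≤
          cnt Bad H + cnt (fun v => (toV v).2.2 (Fin.last d) ≠ 0 ∧
            (False → (toV v).2.1 = 0) ∧
            ∃ z : ℚ, 2 ^ κ₀ ≤ mulHeight₁ z ∧ Rec (toV v) z z z) H := by
        refine le_trans (cnt_mono (fun v hv => ?_) H) (cnt_or H)
        obtain ⟨⟨hvG, w, hw⟩, hvE⟩ := hv
        by_cases hbad : PerC D 2 (toV v)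
        · exact Or.inl ⟨hvG, hbad⟩
        · right
          have huniq : ∀ w', Per D (toV v) w' → w' = w := by
            intro w' hw'
            by_contra hne
            exact hbad (perC_two hw hw' hne)
          obtain ⟨z, hzw, hrec⟩ := unique_per hvG hw huniq
          subst hzw
          refine ⟨hvG.2.2, fun h => h.elim, z, ?_, hrec⟩
          by_contra hlt
          push Not at hlt
          refine hvE z ?_ ⟨hvG, (fix_iff hvG.1 _).mpr ⟨rfl, (rec_iff _ _).mp hrec⟩, huniq⟩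
          rw [Finset.mem_preimage]
          have h6 := hA ℚ (by rw [Module.finrank_self]) z hlt.le (algebraMap ℚ ℂ)
          simpa using h6
      have h6 : (cnt (fun v : Ix d → ℤ => (toV v).2.2 (Fin.last d) ≠ 0 ∧
            (False → (toV v).2.1 = 0) ∧
            ∃ z : ℚ, 2 ^ κ₀ ≤ mulHeight₁ z ∧ Rec (toV v) z z z) H : ℝ) ≤
          C₄ * (1 / 2) ^ κ₀ * (H : ℝ) ^ (2 + d) := by
        have h7 := h₄ H hH1 κ₀
        rw [← cnt_toV (fun v => v.2.2 (Fin.last d) ≠ 0 ∧ (False → v.2.1 = 0) ∧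
            ∃ z : ℚ, 2 ^ κ₀ ≤ mulHeight₁ z ∧ Rec v z z z)] at h7
        exact h7
      have h7 := hBadle H hH1
      have h8 : (cnt (fun v => S v ∧
          ∀ z ∈ A.preimage (fun z : ℚ => (z : ℂ)) hinj.injOn, ¬ E z v) H : ℝ) ≤
          C₃ * (H : ℝ) ^ (d + 1) + C₄ * (1 / 2) ^ κ₀ * (H : ℝ) ^ (2 + d) := by
        refine le_trans (Nat.cast_le.mpr h5) ?_
        push_cast
        exact add_le_add h7 h6
      refine h8.trans ?_
      have h9 : C₃ * (H : ℝ) ^ (d + 1) ≤ ε / 2 * (H : ℝ) ^ (d + 2) := by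
        rw [div_lt_iff₀ hε] at hH
        rw [pow_succ (H : ℝ) (d + 1)]
        have : C₃ ≤ ε / 2 * H := by nlinarith
        calc C₃ * (H : ℝ) ^ (d + 1) ≤ ε / 2 * H * (H : ℝ) ^ (d + 1) :=
              mul_le_mul_of_nonneg_right this (by positivity)
          _ = _ := by ring
      have h10 : C₄ * (1 / 2) ^ κ₀ * (H : ℝ) ^ (2 + d) ≤ ε / 2 * (H : ℝ) ^ (d + 2) := by
        rw [add_comm 2 d]
        exact mul_le_mul_of_nonneg_right hκ₀.le (by positivity)
      linarith)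
    (fun z v₀ _ hv₀ => ⟨MvPolynomial.X none * MvPolynomial.X (some none) *
      MvPolynomial.X (some (some (Fin.last d))), by
      rw [map_mul, map_mul, MvPolynomial.eval_X, MvPolynomial.eval_X, MvPolynomial.eval_X]
      exact mul_ne_zero (mul_ne_zero hv₀.1 hv₀.2.1) hv₀.2.2, fun v hv => by
      rw [map_mul, map_mul, MvPolynomial.eval_X, MvPolynomial.eval_X, MvPolynomial.eval_X] at hv
      exact ⟨left_ne_zero_of_mul (left_ne_zero_of_mul hv),
        right_ne_zero_of_mul (left_ne_zero_of_mul hv), right_ne_zero_of_mul hv⟩⟩)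
  have hpos' : ∀ z, 0 < a z := by
    intro z
    refine hpos z ?_ (exists_fix hd2 z)
    have h5 := le_finrank_ker (fn d z)
    rw [Fintype.card_option, Fintype.card_option, Fintype.card_fin, Fintype.card_fin] at h5
    show d + 2 ≤ Module.finrank ℤ (LinearMap.ker (fn d z))
    omega
  refine ⟨a, κ, lt_of_lt_of_le (hpos' 0) (le_hasSum hsum 0 fun z _ => ha0 z), hpos', hsum, ?_, ?_⟩
  · refine hS.congr fun H => ?_
    rw [← cnt_toV (fun v => IsHen v ∧ ∃ P, Per D v P)]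
  · intro z
    refine (hE z).congr fun H => ?_
    rw [← cnt_toV (fun v => IsHen v ∧ hen ℂ v ((z : ℂ), (z : ℂ)) = ((z : ℂ), (z : ℂ)) ∧
        ∀ P, Per D v P → P = ((z : ℂ), (z : ℂ)))]

end Pool.Agent.R414.EF.Hn
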