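import Pool.Agent.R414.EF.Cj
import Pool.Agent.R414.EC.Pol

set_option autoImplicit false

/-! The limit law for the polynomials with a preperiodic point of bounded degree. -/

open Finset Height NumberField Filter Topology
open Pool.Agent.R414.EB
open Pool.Agent.R414.EC
open Pool.Agent.R414.ED

namespace Pool.Agent.R414.EF

/-- the vector with its parts -/
def toP {d : ℕ} (v : Option (Fin (d + 1)) → ℤ) : PV d := (v none, fun i => v (some i))

theorem toP_inj {d : ℕ} : Function.Injective (toP : (Option (Fin (d + 1)) → ℤ) → PV d) := by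
  intro v w h
  simp only [toP, Prod.mk.injEq] at h
  funext i
  cases i with
  | none => exact h.1
  | some i => exact congrFun h.2 i

/-- `z` is a preperiodic point of degree at most `D` -/
def Pre {d : ℕ} (D : ℕ) (v : PV d) (z : ℂ) : Prop :=
  (∃ K : IntermediateField ℚ ℂ, FiniteDimensional ℚ K ∧ Module.finrank ℚ K ≤ D ∧ z ∈ K) ∧
    ∃ m n : ℕ, m < n ∧ (pol ℂ v)^[n] z = (pol ℂ v)^[m] z

theorem preC_one {d D : ℕ} {v : PV d} : PreC D 1 v ↔ ∃ z, Pre D v z := by
  constructor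
  · rintro ⟨z, -, hz⟩
    exact ⟨z 0, hz 0⟩
  · rintro ⟨z, hz⟩
    exact ⟨fun _ => z, fun i j _ => Subsingleton.elim _ _, fun _ => hz⟩

theorem preC_two {d D : ℕ} {v : PV d} {z w : ℂ} (hz : Pre D v z) (hw : Pre D v w) (hne : w ≠ z) :
    PreC D 2 v := by
  refine ⟨![z, w], ?_, ?_⟩
  · intro i j hij
    fin_cases i <;> fin_cases j <;> simp_all [eq_comm]
  · intro i
    fin_cases i
    · exact hz
    · exact hw

theorem rat_mem (K : IntermediateField ℚ ℂ) (z : ℚ) : (z : ℂ) ∈ K := by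
  have h1 := K.algebraMap_mem z
  have h2 : algebraMap ℚ ℂ z = (z : ℂ) := by simp
  rwa [h2] at h1

/-- fixed points -/
theorem pre_of_fix {d D : ℕ} {v : PV d} {z : ℂ}
    (hK : ∃ K : IntermediateField ℚ ℂ, FiniteDimensional ℚ K ∧ Module.finrank ℚ K ≤ D ∧ z ∈ K)
    (h : pol ℂ v z = z) : Pre D v z :=
  ⟨hK, 0, 1, one_pos, by rw [Function.iterate_one, Function.iterate_zero, id, h]⟩

theorem rat_deg {D : ℕ} (hD : 1 ≤ D) (z : ℚ) :
    ∃ K : IntermediateField ℚ ℂ, FiniteDimensional ℚ K ∧ Module.finrank ℚ K ≤ D ∧ (z : ℂ) ∈ K :=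
  ⟨⊥, inferInstance, by rw [IntermediateField.finrank_bot]; exact hD, rat_mem ⊥ z⟩

/-- the image of a preperiodic point -/
theorem Pre.image {d D : ℕ} {v : PV d} {z : ℂ} (h : Pre D v z) : Pre D v (pol ℂ v z) := by
  obtain ⟨⟨K, hK1, hK2, hK3⟩, m, n, hmn, hnz⟩ := h
  refine ⟨⟨K, hK1, hK2, ?_⟩, m, n, hmn, ?_⟩
  · unfold pol
    exact K.div_mem (K.sum_mem fun i _ => K.mul_mem (intCast_mem K _) (pow_mem hK3 _))
      (intCast_mem K _)
  · rw [← Function.iterate_succ_apply, ← Function.iterate_succ_apply,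
      Function.iterate_succ_apply', Function.iterate_succ_apply', hnz]

theorem fix_iff {d : ℕ} {v : PV d} (hb : v.1 ≠ 0) (z : ℂ) :
    pol ℂ v z = z ↔ ∑ i, (v.2 i : ℂ) * z ^ (i : ℕ) = (v.1 : ℂ) * z := by
  have hbC : (v.1 : ℂ) ≠ 0 := by exact_mod_cast hb
  unfold pol
  rw [div_eq_iff hbC, mul_comm z]

theorem rec_iff {d : ℕ} (v : PV d) (z : ℚ) :
    Rec (toVec v) z z z ↔ ∑ i, (v.2 i : ℂ) * (z : ℂ) ^ (i : ℕ) = (v.1 : ℂ) * z := by
  unfold Rec toVec
  simp only [Int.cast_zero, zero_mul, add_zero]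
  constructor
  · intro h
    exact_mod_cast congrArg (fun q : ℚ => (q : ℂ)) h
  · intro h
    exact_mod_cast h

/-- the functional of the point `z` -/
def fn (d : ℕ) (z : ℚ) : (Option (Fin (d + 1)) → ℤ) →ₗ[ℤ] (Fin 1 → ℤ) where
  toFun v _ := ∑ i : Fin (d + 1), v (some i) * (z.num ^ (i : ℕ) * (z.den : ℤ) ^ (d - i)) -
    v none * (z.num * (z.den : ℤ) ^ (d - 1))
  map_add' v w := by
    funext _
    simp only [Pi.add_apply, add_mul, sum_add_distrib]
    ring
  map_smul' c v := by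
    funext _
    simp only [Pi.smul_apply, smul_eq_mul, RingHom.id_apply, mul_assoc, ← mul_sum, mul_sub]

/-- the lattice of the point `z` -/
def lat (d : ℕ) (z : ℚ) : Submodule ℤ (Option (Fin (d + 1)) → ℤ) := LinearMap.ker (fn d z)

theorem mem_lat {d : ℕ} (hd : 1 ≤ d) (z : ℚ) (v : Option (Fin (d + 1)) → ℤ) :
    v ∈ lat d z ↔ Rec (toVec (toP v)) z z z := by
  have hq : ((z.den : ℕ) : ℚ) ≠ 0 := by exact_mod_cast z.den_nz
  have hzq : z * (z.den : ℚ) = z.num := Rat.mul_den_eq_num z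
  have h1 : ∀ i : Fin (d + 1), z ^ (i : ℕ) * (z.den : ℚ) ^ d =
      (z.num : ℚ) ^ (i : ℕ) * (z.den : ℚ) ^ (d - i) := by
    intro i
    have e1 : (z.den : ℚ) ^ d = (z.den : ℚ) ^ (i : ℕ) * (z.den : ℚ) ^ (d - i) := by
      rw [← pow_add]
      congr 1
      omega
    rw [e1, ← mul_assoc, ← mul_pow, hzq]
  have h2 : z * (z.den : ℚ) ^ d = (z.num : ℚ) * (z.den : ℚ) ^ (d - 1) := by
    have e1 : (z.den : ℚ) ^ d = (z.den : ℚ) * (z.den : ℚ) ^ (d - 1) := by
      rw [← pow_succ']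
      congr 1
      omega
    rw [e1, ← mul_assoc, hzq]
  have h3 : v ∈ lat d z ↔ ∑ i : Fin (d + 1), v (some i) * (z.num ^ (i : ℕ) * (z.den : ℤ) ^ (d - i)) -
      v none * (z.num * (z.den : ℤ) ^ (d - 1)) = 0 := by
    unfold lat
    rw [LinearMap.mem_ker, funext_iff]
    constructor
    · intro h
      exact h 0
    · intro h _
      exact h
  rw [h3]
  unfold Rec toVec toP
  simp only [Int.cast_zero, zero_mul, add_zero]
  have hqd : (z.den : ℚ) ^ d ≠ 0 := pow_ne_zero _ hq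
  rw [← mul_left_inj' hqd, sum_mul]
  have e2 : ∑ i : Fin (d + 1), (v (some i) : ℚ) * z ^ (i : ℕ) * (z.den : ℚ) ^ d =
      ∑ i : Fin (d + 1), (v (some i) : ℚ) * ((z.num : ℚ) ^ (i : ℕ) * (z.den : ℚ) ^ (d - i)) :=
    sum_congr rfl fun i _ => by rw [mul_assoc, h1 i]
  rw [e2, mul_assoc, h2, sub_eq_zero]
  constructor
  · intro h
    exact_mod_cast congrArg (fun q : ℤ => (q : ℚ)) h
  · intro h
    exact_mod_cast h

/-- polynomials fixing a given rational number -/
theorem exists_fix {d : ℕ} (hd : 2 ≤ d) (z : ℚ) :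
    ∃ v : Option (Fin (d + 1)) → ℤ, v ∈ lat d z ∧ IsPol (toP v) := by
  classical
  by_cases hz : z = 0
  · refine ⟨fun o => o.elim 1 fun i => if i = Fin.last d then 1 else 0, ?_, ?_⟩
    · rw [mem_lat (by omega)]
      unfold Rec toVec toP
      simp only [Option.elim_none, Option.elim_some, hz]
      rw [Finset.sum_eq_single (Fin.last d)]
      · simp
        omega
      · intro i _ hi
        simp [hi]
      · simp
    · simp [IsPol, toP]
  · have hn : z.num ≠ 0 := Rat.num_ne_zero.mpr hz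
    refine ⟨fun o => o.elim (z.num ^ (d - 1)) fun i => if i = Fin.last d then
      (z.den : ℤ) ^ (d - 1) else 0, ?_, ?_⟩
    · rw [mem_lat (by omega)]
      unfold Rec toVec toP
      simp only [Option.elim_none, Option.elim_some]
      rw [Finset.sum_eq_single (Fin.last d)]
      · rw [if_pos rfl, Fin.val_last]
        push_cast
        have e1 : z ^ d = z ^ (d - 1) * z := by
          rw [← pow_succ]
          congr 1
          omega
        rw [e1, ← mul_assoc, ← mul_pow, mul_comm (z.den : ℚ) z, Rat.mul_den_eq_num]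
        ring
      · intro i _ hi
        simp [hi]
      · simp
    · refine ⟨pow_ne_zero _ hn, ?_⟩
      show (if Fin.last d = Fin.last d then (z.den : ℤ) ^ (d - 1) else 0) ≠ 0
      rw [if_pos rfl]
      exact pow_ne_zero _ (by exact_mod_cast z.den_nz)

/-- a unique preperiodic point is a rational fixed point -/
theorem unique_pre {d D : ℕ} {v : PV d} (hv : IsPol v) {w : ℂ} (hw : Pre D v w)
    (huniq : ∀ w', Pre D v w' → w' = w) : ∃ z : ℚ, (z : ℂ) = w ∧ pol ℂ v w = w := by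
  have hfix : pol ℂ v w = w := huniq _ hw.image
  by_contra hcon
  have hrat : ∀ z : ℚ, (z : ℂ) ≠ w := fun z hz => hcon ⟨z, hz, hfix⟩
  obtain ⟨⟨K, hK1, hK2, hK3⟩, -⟩ := hw
  obtain ⟨w', hne, hK', hQ⟩ := exists_conj hK1 hK2 hK3 hrat
  apply hne
  apply huniq
  refine pre_of_fix hK' ?_
  rw [fix_iff hv.1] at hfix ⊢
  have h1 := hQ (∑ i : Fin (d + 1), Polynomial.C (v.2 i : ℚ) * Polynomial.X ^ (i : ℕ) -
    Polynomial.C (v.1 : ℚ) * Polynomial.X) (by
      simp only [map_sub, map_sum, map_mul, map_pow, Polynomial.aeval_X,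
        map_intCast]
      rw [hfix, sub_self])
  simp only [map_sub, map_sum, map_mul, map_pow, Polynomial.aeval_X,
    map_intCast] at h1
  exact sub_eq_zero.mp h1

theorem cnt_toP {d : ℕ} (Q : PV d → Prop) (H : ℕ) :
    cnt (fun v : Option (Fin (d + 1)) → ℤ => Q (toP v)) H =
      ({v | toVec v ∈ vbox d H ∧ Q v} : Set (PV d)).ncard := by
  unfold cnt
  rw [← Set.ncard_image_of_injective _ (toP_inj (d := d))]
  congr 1
  ext v
  simp only [Set.mem_image, Set.mem_ofPred_eq, mem_vbox]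
  constructor
  · rintro ⟨w, ⟨h1, h2⟩, rfl⟩
    exact ⟨⟨h1 none, by simp [toVec], fun i => h1 (some i)⟩, h2⟩
  · rintro ⟨⟨h1, -, h2⟩, h3⟩
    refine ⟨fun o => o.elim v.1 v.2, ⟨?_, h3⟩, rfl⟩
    intro i
    cases i with
    | none => exact h1
    | some i => exact h2 i

/-- **The limit law.** -/
theorem pol_limit (D : ℕ) (hD : 1 ≤ D) : ∃ d₀ : ℕ, ∀ d, d₀ ≤ d →
    ∃ (a : ℚ → ℝ) (κ : ℝ), 0 < κ ∧ (∀ z, 0 < a z) ∧ HasSum a κ ∧
      Tendsto (fun H : ℕ => (({v | toVec v ∈ vbox d H ∧ (IsPol v ∧ ∃ z, Pre D v z)} :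
        Set (PV d)).ncard : ℝ) / (H : ℝ) ^ (d + 1)) atTop (𝓝 κ) ∧
      ∀ z : ℚ, Tendsto (fun H : ℕ => (({v | toVec v ∈ vbox d H ∧ (IsPol v ∧ pol ℂ v z = z ∧
        ∀ w, Pre D v w → w = z)} : Set (PV d)).ncard : ℝ) / (H : ℝ) ^ (d + 1)) atTop
          (𝓝 (a z)) := by
  classical
  obtain ⟨d₁, hd₁⟩ := Pool.Agent.R414.EC.final D 1 hD le_rfl
  obtain ⟨d₂, hd₂⟩ := Pool.Agent.R414.EC.final D 2 hD (by norm_num)
  obtain ⟨c, C₂, hc⟩ := Pool.Agent.W32.GE.pts 1
  refine ⟨d₁ + d₂ + 2 + 2 * (c * 7 + 1), fun d hd => ?_⟩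
  have hd2 : 2 ≤ d := by omega
  obtain ⟨-, C₁, -, -, hC₁, h₁, -⟩ := hd₁ d (by omega)
  obtain ⟨-, C₃, -, -, hC₃, h₃, -⟩ := hd₂ d (by omega)
  obtain ⟨C₄, hC₄, h₄⟩ := fix_tail (d := d) (c := c) (C₂ := C₂) True hd2 (by omega) hc
  simp only [if_true] at h₄
  let Good : (Option (Fin (d + 1)) → ℤ) → Prop := fun v => IsPol (toP v)
  let S : (Option (Fin (d + 1)) → ℤ) → Prop := fun v => IsPol (toP v) ∧ ∃ z, Pre D (toP v) z
  let Bad : (Option (Fin (d + 1)) → ℤ) → Prop := fun v => IsPol (toP v) ∧ PreC D 2 (toP v)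
  let E : ℚ → (Option (Fin (d + 1)) → ℤ) → Prop := fun z v =>
    IsPol (toP v) ∧ pol ℂ (toP v) z = z ∧ ∀ w, Pre D (toP v) w → w = z
  have hLfix : ∀ (z : ℚ) (v : Option (Fin (d + 1)) → ℤ), IsPol (toP v) →
      (v ∈ lat d z ↔ pol ℂ (toP v) z = z) := by
    intro z v hv
    rw [mem_lat (by omega), rec_iff, fix_iff hv.1]
  have hBadle : ∀ H : ℕ, 1 ≤ H → (cnt Bad H : ℝ) ≤ C₃ * (H : ℝ) ^ d := by
    intro H hH
    have h5 := h₃ H hH
    rw [← cnt_toP (fun v => IsPol v ∧ PreC D 2 v)] at h5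
    have e1 : d + 2 - 2 = d := by omega
    rw [e1] at h5
    exact h5
  obtain ⟨a, κ, ha0, hsum, hS, hE, hpos⟩ := main_limit (lat d) Good Bad S E (d + 1) C₁
    (fun z v hv => ⟨(hLfix z v hv.1).mpr hv.2.1, hv.1⟩)
    (fun z v hvL hvG => by
      have hfix := (hLfix z v hvG).mp hvL
      have hpre : Pre D (toP v) z := pre_of_fix (rat_deg hD z) hfix
      refine ⟨⟨hvG, z, hpre⟩, fun hnE => ⟨hvG, ?_⟩⟩
      by_contra hcon
      apply hnE
      refine ⟨hvG, hfix, fun w hw => ?_⟩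
      by_contra hne
      exact hcon (preC_two hpre hw hne))
    (fun z z' v h h' => by
      have h5 : Pre D (toP v) z := pre_of_fix (rat_deg hD z) h.2.1
      exact_mod_cast h'.2.2 z h5)
    (by
      have h5 : Tendsto (fun H : ℕ => C₃ * (1 / (H : ℝ))) atTop (𝓝 0) := by
        have := (tendsto_one_div_atTop_nhds_zero_nat (𝕜 := ℝ)).const_mul C₃
        rwa [mul_zero] at this
      refine squeeze_zero' (Eventually.of_forall fun H => by positivity) ?_ h5
      filter_upwards [eventually_ge_atTop 1] with H hH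
      have hH0 : (0 : ℝ) < H := by exact_mod_cast hH
      rw [div_le_iff₀ (by positivity)]
      refine (hBadle H hH).trans (le_of_eq ?_)
      rw [pow_succ]
      field_simp)
    (fun H hH => by
      have h5 := h₁ H hH
      have e1 : d + 2 - 1 = d + 1 := by omega
      rw [e1, ← cnt_toP (fun v => IsPol v ∧ PreC D 1 v)] at h5
      refine le_trans (Nat.cast_le.mpr (cnt_mono (fun v hv => ?_) H)) h5
      exact ⟨hv.1, preC_one.mpr hv.2⟩)
    (fun ε hε => by
      obtain ⟨κ₀, hκ₀⟩ : ∃ κ₀ : ℕ, C₄ * (1 / 2) ^ κ₀ < ε / 2 := by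
        have h5 : Tendsto (fun n : ℕ => C₄ * (1 / 2 : ℝ) ^ n) atTop (𝓝 0) := by
          have := (tendsto_pow_atTop_nhds_zero_of_lt_one (r := (1 / 2 : ℝ)) (by norm_num)
            (by norm_num)).const_mul C₄
          rwa [mul_zero] at this
        exact (h5.eventually (gt_mem_nhds (by positivity))).exists
      obtain ⟨A, -, hA⟩ := hc (2 ^ κ₀) (one_le_pow₀ (by norm_num))
      have hinj : Function.Injective (fun z : ℚ => (z : ℂ)) := Rat.cast_injective
      refine ⟨A.preimage (fun z : ℚ => (z : ℂ)) hinj.injOn, ?_⟩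
      have hN : ∀ᶠ H : ℕ in atTop, 2 * C₃ / ε < (H : ℝ) :=
        tendsto_natCast_atTop_atTop.eventually (eventually_gt_atTop _)
      filter_upwards [hN, eventually_ge_atTop 1] with H hH hH1
      have hH0 : (0 : ℝ) < H := by exact_mod_cast hH1
      have h5 : cnt (fun v => S v ∧ ∀ z ∈ A.preimage (fun z : ℚ => (z : ℂ)) hinj.injOn, ¬ E z v) H ≤
          cnt Bad H + cnt (fun v => (toVec (toP v)).2.2 (Fin.last d) ≠ 0 ∧
            (True → (toVec (toP v)).2.1 = 0) ∧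
            ∃ z : ℚ, 2 ^ κ₀ ≤ mulHeight₁ z ∧ Rec (toVec (toP v)) z z z) H := by
        refine le_trans (cnt_mono (fun v hv => ?_) H) (cnt_or H)
        obtain ⟨⟨hvG, w, hw⟩, hvE⟩ := hv
        by_cases hbad : PreC D 2 (toP v)
        · exact Or.inl ⟨hvG, hbad⟩
        · right
          have huniq : ∀ w', Pre D (toP v) w' → w' = w := by
            intro w' hw'
            by_contra hne
            exact hbad (preC_two hw hw' hne)
          obtain ⟨z, hzw, hfix⟩ := unique_pre hvG hw huniq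
          subst hzw
          refine ⟨hvG.2, fun _ => rfl, z, ?_, (rec_iff _ _).mpr ((fix_iff hvG.1 _).mp hfix)⟩
          by_contra hlt
          push Not at hlt
          refine hvE z ?_ ⟨hvG, hfix, huniq⟩
          rw [Finset.mem_preimage]
          have h6 := hA ℚ (by rw [Module.finrank_self]) z hlt.le (algebraMap ℚ ℂ)
          simpa using h6
      have h6 : (cnt (fun v : Option (Fin (d + 1)) → ℤ => (toVec (toP v)).2.2 (Fin.last d) ≠ 0 ∧
            (True → (toVec (toP v)).2.1 = 0) ∧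
            ∃ z : ℚ, 2 ^ κ₀ ≤ mulHeight₁ z ∧ Rec (toVec (toP v)) z z z) H : ℝ) ≤
          C₄ * (1 / 2) ^ κ₀ * (H : ℝ) ^ (1 + d) := by
        refine le_trans ?_ (h₄ H hH1 κ₀)
        rw [cnt_toP (fun v => (toVec v).2.2 (Fin.last d) ≠ 0 ∧ (True → (toVec v).2.1 = 0) ∧
            ∃ z : ℚ, 2 ^ κ₀ ≤ mulHeight₁ z ∧ Rec (toVec v) z z z)]
        refine Nat.cast_le.mpr (Set.ncard_le_ncard_of_injOn toVec ?_ toVec_inj.injOn
          ((Finset.finite_toSet (vbox d H)).subset fun v h => h.1))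
        rintro v ⟨h7, h8⟩
        exact ⟨h7, h8⟩
      have h7 := hBadle H hH1
      have h8 : (cnt (fun v => S v ∧
          ∀ z ∈ A.preimage (fun z : ℚ => (z : ℂ)) hinj.injOn, ¬ E z v) H : ℝ) ≤
          C₃ * (H : ℝ) ^ d + C₄ * (1 / 2) ^ κ₀ * (H : ℝ) ^ (1 + d) := by
        refine le_trans (Nat.cast_le.mpr h5) ?_
        push_cast
        exact add_le_add h7 h6
      refine h8.trans ?_
      have h9 : C₃ * (H : ℝ) ^ d ≤ ε / 2 * (H : ℝ) ^ (d + 1) := by
        rw [div_lt_iff₀ hε] at hH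
        rw [pow_succ]
        have : C₃ ≤ ε / 2 * H := by nlinarith
        calc C₃ * (H : ℝ) ^ d ≤ ε / 2 * H * (H : ℝ) ^ d :=
              mul_le_mul_of_nonneg_right this (by positivity)
          _ = _ := by ring
      have h10 : C₄ * (1 / 2) ^ κ₀ * (H : ℝ) ^ (1 + d) ≤ ε / 2 * (H : ℝ) ^ (d + 1) := by
        rw [add_comm 1 d]
        exact mul_le_mul_of_nonneg_right hκ₀.le (by positivity)
      linarith)
    (fun z v₀ _ hv₀ => ⟨MvPolynomial.X none * MvPolynomial.X (some (Fin.last d)), by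
      rw [map_mul, MvPolynomial.eval_X, MvPolynomial.eval_X]
      exact mul_ne_zero hv₀.1 hv₀.2, fun v hv => by
      rw [map_mul, MvPolynomial.eval_X, MvPolynomial.eval_X] at hv
      exact ⟨left_ne_zero_of_mul hv, right_ne_zero_of_mul hv⟩⟩)
  have hpos' : ∀ z, 0 < a z := by
    intro z
    refine hpos z ?_ (exists_fix hd2 z)
    have h5 := le_finrank_ker (fn d z)
    rw [Fintype.card_option, Fintype.card_fin, Fintype.card_fin] at h5
    show d + 1 ≤ Module.finrank ℤ (LinearMap.ker (fn d z))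
    omega
  refine ⟨a, κ, lt_of_lt_of_le (hpos' 0) (le_hasSum hsum 0 fun z _ => ha0 z), hpos', hsum, ?_, ?_⟩
  · refine hS.congr fun H => ?_
    rw [← cnt_toP (fun v => IsPol v ∧ ∃ z, Pre D v z)]
  · intro z
    refine (hE z).congr fun H => ?_
    rw [← cnt_toP (fun v => IsPol v ∧ pol ℂ v z = z ∧ ∀ w, Pre D v w → w = z)]

end Pool.Agent.R414.EF
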